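import Pool.Agent.H.MP_7596fa_lc.T.Final

/-!
For every `n ≥ 3` the variety generated by the algebra of `n × n` matrices over a field of
characteristic zero contains an algebra with one relation whose word problem is undecidable.
-/

namespace Pool.Agent.Results.MP_7596fa_lc.MatrixVarieties

open Pool.Agent.H.MP_7596fa_lc

universe u

/-- A nonempty word in the letters `0, …, k - 1`: the first letter and the list of the others. -/
abbrev Word (k : ℕ) : Type := Fin k × List (Fin k)

/-- A code is a pair of finite lists of nonempty words. -/
abbrev Code (k : ℕ) : Type := List (Word k) × List (Word k)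

/-- The monomial given by a nonempty word. -/
noncomputable def monomial (F : Type u) [Field F] {k : ℕ} (w : Word k) : FreeAlgebra F (Fin k) :=
  FreeAlgebra.ι F w.1 * (w.2.map (FreeAlgebra.ι F)).prod

/-- The element of the free algebra given by a code: the sum of the words in the first list minus
the sum of the words in the second list. -/
noncomputable def value (F : Type u) [Field F] {k : ℕ} (P : Code k) : FreeAlgebra F (Fin k) :=
  (P.1.map (monomial F)).sum - (P.2.map (monomial F)).sum

/-- The polynomial identities in `k` variables of the algebra of `n × n` matrices over `F`. -/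
def identities (F : Type u) [Field F] (n k : ℕ) : Set (FreeAlgebra F (Fin k)) :=
  {g | ∀ a : Fin k → Matrix (Fin n) (Fin n) F, FreeAlgebra.lift F a g = 0}

/-- For every field `F` of characteristic zero and every `n ≥ 3` there is an element `value F Q` of
the free algebra of finite rank `k`, such that no algorithm decides whether the element
`value F P` given by a code `P` lies in the ideal generated by `value F Q` together with the
identities of the algebra of `n × n` matrices. -/
theorem result (F : Type u) [Field F] [CharZero F] (n : ℕ) (hn : 3 ≤ n) :
    ∃ (k : ℕ) (Q : Code k), ¬ ComputablePred fun P : Code k =>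
      value F P ∈ TwoSidedIdeal.span (identities F n k ∪ {value F Q}) := by
  obtain ⟨k, Q, h⟩ := T.master2 F (n * n + 1) (Nat.succ_pos _)
  refine ⟨k, Q, ?_⟩
  refine h (identities F n k) ?_ ?_
  · intro a _
    apply TwoSidedIdeal.subset_span
    intro b
    have h1 := map_stdPoly (FreeAlgebra.lift F b).toRingHom (n * n + 1) a
    change FreeAlgebra.lift F b _ = _ at h1
    rw [h1]
    exact stdPoly_matrix n (n * n + 1) (Nat.lt_succ_self _) _
  · intro g hg C _ _ s _ m _ a b
    rw [map_mul, map_mul, ident_generic 3 g (ident_mono hn g hg) m]
    simp

end Pool.Agent.Results.MP_7596fa_lc.MatrixVarieties
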