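import Pool.Agent.H.MP_7596fa_lc.T.Final

/-!
For every `n ≥ 6` the variety defined by the standard identity of degree `n` over a field of
characteristic zero contains an algebra with one relation whose word problem is undecidable.
-/

namespace Pool.Agent.Results.MP_7596fa_lc.StandardVarieties

open Pool.Agent.H.MP_7596fa_lc

universe u

/-- A nonempty word in the letters `0, …, k - 1`: the first letter and the list of the others. -/
abbrev Word (k : ℕ) : Type := Fin k × List (Fin k)

/-- A code is a pair of finite lists of nonempty words. -/
abbrev Code (k : ℕ) : Type := List (Word k) × List (Word k)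

/-- The monomial given by a nonempty word. -/
noncomputable def monomial (F : Type u) [Field F] {k : ℕ} (w : Word k) : FreeAlgebra F (Fin k) :=
  FreeAlgebra.ι F w.1 * (w.2.map (FreeAlgebra.ι F)).prod

/-- The element of the free algebra given by a code: the sum of the words in the first list minus
the sum of the words in the second list. -/
noncomputable def value (F : Type u) [Field F] {k : ℕ} (P : Code k) : FreeAlgebra F (Fin k) :=
  (P.1.map (monomial F)).sum - (P.2.map (monomial F)).sum

/-- The value of the standard polynomial of degree `n` at `a 0, …, a (n - 1)`. -/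
def standard {A : Type*} [Ring A] (n : ℕ) (a : Fin n → A) : A :=
  ∑ σ : Equiv.Perm (Fin n), (Equiv.Perm.sign σ : ℤ) • (List.ofFn fun i => a (σ i)).prod

/-- The values of the standard polynomial of degree `n` at arbitrary elements of the free algebra
of rank `k`. -/
def standardValues (F : Type u) [Field F] (n k : ℕ) : Set (FreeAlgebra F (Fin k)) :=
  {g | ∃ a : Fin n → FreeAlgebra F (Fin k), g = standard n a}

/-- The values of the standard polynomial of degree `n` at elements with zero constant term. -/
def standardValues₀ (F : Type u) [Field F] (n k : ℕ) : Set (FreeAlgebra F (Fin k)) :=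
  {g | ∃ a : Fin n → FreeAlgebra F (Fin k),
    (∀ i, FreeAlgebra.lift F (fun _ => (0 : F)) (a i) = 0) ∧ g = standard n a}

/-- For every field `F` of characteristic zero and every `n ≥ 6` there is an element `value F Q`
of the free algebra of finite rank `k`, such that no algorithm decides whether the element
`value F P` given by a code `P` lies in the ideal generated by `value F Q` together with all
values of the standard polynomial of degree `n`. The first part is for the variety of algebras
with unit, the second part for the variety of algebras without unit. -/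
theorem result (F : Type u) [Field F] [CharZero F] (n : ℕ) (hn : 6 ≤ n) :
    ∃ (k : ℕ) (Q : Code k),
      (¬ ComputablePred fun P : Code k =>
        value F P ∈ TwoSidedIdeal.span (standardValues F n k ∪ {value F Q})) ∧
      (¬ ComputablePred fun P : Code k =>
        value F P ∈ TwoSidedIdeal.span (standardValues₀ F n k ∪ {value F Q})) := by
  obtain ⟨k, Q, h⟩ := T.master2 F n (by omega)
  have h0 : ∀ a : Fin n → FreeAlgebra F (Fin k), ∀ (C : Type u) [CommRing C] [Algebra F C] (s : C),
      s * s = 0 → ∀ m : Fin k → Matrix (Fin 3) (Fin 3) C, (∀ x, T.Low s (m x)) →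
      ∀ b c, FreeAlgebra.lift F m (b * standard n a * c) 0 0 = 0 := by
    intro a C _ _ s hs m hm b c
    have h1 := map_stdPoly (FreeAlgebra.lift F m).toRingHom n a
    change FreeAlgebra.lift F m (standard n a) = _ at h1
    rw [map_mul, map_mul, h1]
    refine T.sn_zero ?_ hs n hn _ _ (T.low_lift m hm c) _ (fun i => T.low_lift m hm (a i))
    intro c hc
    have h2 : (2 : F) • c = 0 := by rw [two_smul]; exact hc
    have h3 : (2 : F)⁻¹ • (2 : F) • c = 0 := by rw [h2, smul_zero]
    rwa [smul_smul, inv_mul_cancel₀ two_ne_zero, one_smul] at h3
  refine ⟨k, Q, ?_, ?_⟩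
  · refine h (standardValues F n k) ?_ ?_
    · intro a _
      exact TwoSidedIdeal.subset_span ⟨a, rfl⟩
    · rintro g ⟨a, rfl⟩ C _ _ s hs m hm b c
      exact h0 a C s hs m hm b c
  · refine h (standardValues₀ F n k) ?_ ?_
    · intro a ha
      exact TwoSidedIdeal.subset_span ⟨a, ha, rfl⟩
    · rintro g ⟨a, _, rfl⟩ C _ _ s hs m hm b c
      exact h0 a C s hs m hm b c

end Pool.Agent.Results.MP_7596fa_lc.StandardVarieties
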